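import Pool.Agent.Helper51.Sagbi.Crit

/-!
# MP_0d1f08_al: a criterion for finite codimension
-/

set_option autoImplicit false

namespace Pool.Agent.Results.MP_0d1f08_al.CodimCriterion

open Pool.Agent.Helper51.Sagbi FreeAlgebra

/-- Let `F = augI K n` be the non-unital free algebra of rank `n`, `A = subalg S` a finitely generated
subalgebra and `I` an ideal contained in `A` such that `F / I` is nil. Then `A` has finite codimension if and
only if, for some `j`, the subspace `A^j F A^j` has finite-dimensional image modulo `A`. In particular `A` has
finite codimension when `A` is a one-sided ideal of `F`, and when `A / I` is nilpotent. -/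
theorem result (K : Type) [Field K] (n : ℕ) (S : Set (FreeAlgebra K (Fin n))) (hS : S.Finite)
    (I : TwoSidedIdeal (FreeAlgebra K (Fin n))) (hI : ∀ x ∈ I, x ∈ subalg S) (hnil : NilMod I) :
    FinCodim (subalg S : Set (FreeAlgebra K (Fin n))) ↔
      ∃ (j : ℕ) (W : Submodule K (FreeAlgebra K (Fin n))), FiniteDimensional K W ∧
        (subsp S) ^ j * augI K n * (subsp S) ^ j ≤ subsp S ⊔ W :=
  criterion S hS I hI hnil

end Pool.Agent.Results.MP_0d1f08_al.CodimCriterion
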