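import Pool.Agent.Helper51.Sagbi.FpNil

/-!
# MP_0d1f08_al: the question for finitely generated ideals is the question for finitely presented nil algebras
-/

set_option autoImplicit false

namespace Pool.Agent.Results.MP_0d1f08_al.FpNilEquivalence

open Pool.Agent.Helper51.Sagbi FreeAlgebra

/-- Over every field `K`, the question Q1 restricted to finitely generated ideals `I` has a positive answer if
and only if every finitely presented nil algebra over `K` is finite-dimensional. -/
theorem result (K : Type) [Field K] : QuestionFg K ↔ FpNilFin K :=
  ⟨fp_of_question, question_of_fp⟩

end Pool.Agent.Results.MP_0d1f08_al.FpNilEquivalence
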