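import Pool.Agent.Helper51.Sagbi.Aug

/-!
# MP_0d1f08_al: subspaces and subalgebras with a regular language of leading words

`FreeAlgebra K (Fin n)` is the unital free algebra; the non-unital free algebra `F` of the problem is the kernel
of the augmentation `FreeAlgebra.lift K 0`.
-/

set_option autoImplicit false

namespace Pool.Agent.Results.MP_0d1f08_al.RegularLeadingWords

open Pool.Agent.Helper51.Sagbi FreeAlgebra

/-- (1) Let `r` be a well-order on the words in `n` letters and `A` a subspace of the free algebra over `K`
whose leading words form a regular language. If `A` contains a two-sided ideal `I` such that every nonempty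
word has a power in `I`, then `A` has finite codimension.

(2) Let `r` be a well-order compatible with concatenation, `S` a finite set of elements with zero constant
term and `A` the subalgebra (without unit) generated by `S`, and assume that every leading word of an element
of `A` is a product of leading words of elements of `S` (`S` is a finite SAGBI basis of `A`). If `A` contains
a two-sided ideal `I` such that every nonempty word has a power in `I`, then `A` has finite codimension. -/
theorem result (K : Type) [Field K] (n : ℕ) (r : FreeMonoid (Fin n) → FreeMonoid (Fin n) → Prop)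
    [IsWellOrder (FreeMonoid (Fin n)) r] (I : TwoSidedIdeal (FreeAlgebra K (Fin n)))
    (hI : WordsNil I) :
    (∀ A : Submodule K (FreeAlgebra K (Fin n)), (leads r (A : Set (FreeAlgebra K (Fin n)))).IsRegular →
      (∀ x ∈ I, x ∈ A) → FinCodim (A : Set (FreeAlgebra K (Fin n)))) ∧
    (Compat r → ∀ S : Set (FreeAlgebra K (Fin n)), S.Finite → AugZero S → IsSagbi r S →
      (∀ x ∈ I, x ∈ subalg S) → FinCodim (subalg S : Set (FreeAlgebra K (Fin n)))) := by
  have part1 : ∀ A : Submodule K (FreeAlgebra K (Fin n)),
      (leads r (A : Set (FreeAlgebra K (Fin n)))).IsRegular →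
      (∀ x ∈ I, x ∈ A) → FinCodim (A : Set (FreeAlgebra K (Fin n))) := by
    intro A hreg hIA
    have hfin := finite_compl r A hreg I hIA hI
    refine ⟨Submodule.span K (mono K '' {w : FreeMonoid (Fin n) |
      FreeMonoid.toList w ∉ leads r (A : Set (FreeAlgebra K (Fin n)))}), ?_, ?_⟩
    · apply FiniteDimensional.span_of_finite
      apply Set.Finite.image
      exact hfin
    · intro x
      obtain ⟨a, ha, v, hv, h⟩ := Submodule.mem_sup.1 (mem_sup r A x)
      exact ⟨a, ha, v, hv, h.symm⟩
  refine ⟨part1, ?_⟩
  intro hr S hSf hS hsag hIA
  have hsag' : ∀ w ∈ leads r (subalg S : Set (FreeAlgebra K (Fin n))),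
      w ∈ KStar.kstar (leads r ((hSf.toFinset : Finset (FreeAlgebra K (Fin n))) :
        Set (FreeAlgebra K (Fin n)))) := by
    rw [Set.Finite.coe_toFinset]
    exact hsag
  have hreg := isRegular_of_sagbi hr (subalg S) hSf.toFinset
    (fun s hs => NonUnitalAlgebra.subset_adjoin K (hSf.mem_toFinset.1 hs)) ?_ hsag'
  · exact part1 (subalg S).toSubmodule hreg hIA
  · -- the empty word is not a leading word of an element of `A`
    rintro ⟨a, ha, hlead⟩
    have h0 : FreeAlgebra.lift K (0 : Fin n → K) a = 0 := aug_adjoin (S := S) hS ha
    rw [aug_eq] at h0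
    exact (mem_supp.1 hlead.1) h0

end Pool.Agent.Results.MP_0d1f08_al.RegularLeadingWords
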